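import Pool.Agent.H52.CIC.StG
import Pool.Agent.H11.Ism.GeoB

/-!
# Project CIC: calculation rules for `Up`
-/

namespace Pool.Agent.H45.CIC

open Pool.Agent.H11.ZDE Pool.Agent.H52.CIC Pool.Agent.H11.Ism

variable {B W : Type} [Group W] {M : CoxeterMatrix B} {cs : CoxeterSystem M W}
  {L : Type} [AddCommGroup L] {R : RootLat L} (G : Geo cs R)

/-- the value of the representation at `u T_b` -/
theorem rhoT (u : W) {b : L} (hb : R.Q b b = 2) (v : L) {k : ℤ} (hk : R.Q v b = k) {e : L} (he : v - k • b = e) :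
    G.ρ (u * G.T b) v = G.ρ u e := by
  rw [Pool.Agent.H58.ZDE.rho_Tk G hb u v hk, he]

/-- making `Up` at `u T_b` -/
theorem upT {u : W} {b v e : L} {k : ℤ} (hb : R.Q b b = 2) (qv : R.Q v v = 2) (pv : R.P v) (hk : R.Q v b = k)
    (he : v - k • b = e) (hp : R.P (G.ρ u e)) : Up G (u * G.T b) v :=
  ⟨qv, pv, by rw [rhoT G u hb v hk he]; exact hp⟩

/-- using `Up` at `u T_b` -/
theorem upOf {u : W} {b v e : L} {k : ℤ} (h : Up G (u * G.T b) v) (hb : R.Q b b = 2) (hk : R.Q v b = k)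
    (he : v - k • b = e) : R.P (G.ρ u e) := by
  have := h.u
  rw [rhoT G u hb v hk he] at this
  exact this

theorem qsum {b c : L} (hb : R.Q b b = 2) (hc : R.Q c c = 2) (hs : R.Q (b + c) (b + c) = 2) : R.Q b c = -1 := by
  have h1 := hs
  rw [R.Q_add, R.Q_addr, R.Q_addr, hb, hc, R.Q_comm c b] at h1
  linarith

theorem qadd {b c : L} (hb : R.Q b b = 2) (hc : R.Q c c = 2) (h : R.Q b c = -1) : R.Q (b + c) (b + c) = 2 := by
  rw [R.Q_add, R.Q_addr, R.Q_addr, hb, hc, R.Q_comm c b, h]; norm_num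

theorem upAdd {u : W} {b c : L} (h : Up G u b) (h' : Up G u c) (hq : R.Q b c = -1) : Up G u (b + c) :=
  ⟨qadd h.q h'.q hq, R.P_add h.p h'.p, by rw [map_add]; exact R.P_add h.u h'.u⟩

theorem upEg {u : W} {b : L} (h : Up G u b) : Eg G u (u * G.T b) := ⟨b, h, rfl⟩

theorem upEg' {u w : W} {b : L} (h : Up G u b) (e : w = u * G.T b) : Eg G u w := ⟨b, h, e⟩

theorem T_ne {u : W} {b c : L} (h : Up G u b) (h' : Up G u c) (hne : b ≠ c) : u * G.T b ≠ u * G.T c := fun e =>
  hne (Pool.Agent.H58.ZDE.T_inj G h.q h'.q h.p h'.p (mul_left_cancel e))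

/-- the hexagon of two edges whose labels have inner product `-1` -/
theorem hexCore {u : W} {b c : L} (hb : Up G u b) (hc : Up G u c) (hq : R.Q b c = -1) :
    Hex (Eg G) u (u * G.T b) (u * G.T c) (u * G.T b * G.T c) (u * G.T c * G.T b) (u * G.T (b + c)) := by
  obtain ⟨r1, r2, r3, r4⟩ := dih G hb.q hc.q hq
  have hq' : R.Q c b = -1 := by rw [R.Q_comm]; exact hq
  have hs := upAdd G hb hc hq
  have hbc : b ≠ c := by
    rintro rfl
    have := hb.q
    omega
  have k1 : R.Q (b + c) b = 1 := by rw [R.Q_add, hb.q, hq']; norm_num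
  have k2 : R.Q (b + c) c = 1 := by rw [R.Q_add, hc.q, hq]; norm_num
  have e1 : u * G.T b * G.T c = u * G.T c * G.T (b + c) := by rw [mul_assoc, r1, mul_assoc]
  have e2 : u * G.T c * G.T b = u * G.T b * G.T (b + c) := by rw [mul_assoc, r3, mul_assoc]
  have e3 : u * G.T (b + c) = u * G.T b * G.T c * G.T b := by
    rw [mul_assoc u, r2, ← mul_assoc, TTx G _ hb.q]
  have e4 : u * G.T (b + c) = u * G.T c * G.T b * G.T c := by
    rw [mul_assoc u, r4, ← mul_assoc, TTx G _ hc.q]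
  refine ⟨T_ne G hb hc hbc, ?_, upEg G hb, upEg G hc, ?_, ?_, ?_, ?_, ?_, ?_⟩
  · intro e
    rw [e2] at e
    rw [mul_assoc, mul_assoc] at e
    have h1 := Pool.Agent.H58.ZDE.T_inj G hc.q hs.q hc.p hs.p (mul_left_cancel (mul_left_cancel e))
    have h2 : b = 0 := by simpa using h1.symm
    exact R.P_ne hb.p h2
  · exact upEg G (upT G hb.q hc.q hc.p hq' (e := b + c) (by module) hs.u)
  · exact upEg' G (upT G hb.q hs.q hs.p k1 (e := c) (by module) hc.u) e2
  · exact upEg' G (upT G hc.q hs.q hs.p k2 (e := b) (by module) hb.u) e1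
  · exact upEg G (upT G hc.q hb.q hb.p hq (e := b + c) (by module) hs.u)
  · refine upEg' G (b := b) ?_ e3
    refine upT G hc.q hb.q hb.p hq (e := b + c) (by module) ?_
    rw [rhoT G u hb.q (b + c) k1 (e := c) (by module)]
    exact hc.u
  · refine upEg' G (b := c) ?_ e4
    refine upT G hb.q hc.q hc.p hq' (e := b + c) (by module) ?_
    rw [rhoT G u hc.q (b + c) k2 (e := b) (by module)]
    exact hb.u

end Pool.Agent.H45.CIC
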